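import Pool.Agent.Q83.NQ.E

/-!
# Digit noise: decay of the mean of `ee (Y β ^ n)` for one power
-/

set_option autoImplicit false
set_option linter.unusedSectionVars false

open MeasureTheory Filter Topology Finset
open scoped ENNReal
open Pool.Agent.H493R3 (ee ee_norm ee_add ee_neg ee_int ee_lip)
open Q83.NP Q83.NQ

namespace Q83.NR

variable {b : ℕ} [NeZero b]

/-- **Decay of the mean of `ee (Y β ^ n)`**, uniform in `n` and `Y`. -/
theorem pw1 (hb : 2 ≤ b) (d : ℕ → Fin b) (T : Set ℕ) (c : ℝ) (hc0 : 0 ≤ c) (hc : c < 1 / 2)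
    (hT : Recurs b c T) (x r β1 : ℝ) (hr : r ≠ 0) (hβ1 : 1 < β1) (k0 : ℕ) (w0 : ℕ → Fin b)
    (hβ : ∀ ω ∈ cyl k0 w0, β1 ≤ x + r * Real.ofDigits ω) :
    ∃ k1 : ℕ, ∀ (n : ℕ) (Y : ℝ) (G : ℕ), 2 ≤ n → 0 < Y → (b : ℝ) ^ G ≤ Y * β1 ^ n →
      16 * (k1 + Nat.log 2 n) ≤ G →
      ‖∫ ω in cyl k0 w0, ee (Y * (x + r * Real.ofDigits ω) ^ n) ∂(noise d T)‖ ≤ 16 / (G : ℝ) ^ 4 := by
  have hn' := noise_prob hb d T
  have hb0 : (0 : ℝ) < b := by exact_mod_cast (by omega : 0 < b)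
  have hb1 : (1 : ℝ) < b := by exact_mod_cast (by omega : 1 < b)
  have hb1' : (1 : ℝ) ≤ b := hb1.le
  have hβ0 : 0 < β1 := by linarith
  obtain ⟨K, hK⟩ : ∃ K : ℝ, K = 8 := ⟨_, rfl⟩
  have hK1 : 1 ≤ K := by rw [hK]; norm_num
  obtain ⟨s0, hs0⟩ : ∃ s0 : ℕ, 4 * K * b ≤ (b : ℝ) ^ s0 := by
    obtain ⟨s0, hs0⟩ := pow_unbounded_of_one_lt (4 * K * b) hb1
    exact ⟨s0, hs0.le⟩
  obtain ⟨x0, hx0⟩ := hT.gap hb hc0
  obtain ⟨Z0, hZ0⟩ := eventually_atTop.1 (asym b hb K hK1 s0 c hc0 hc)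
  obtain ⟨η, hη⟩ : ∃ η : ℝ, η = min (1 / 2) (β1 - 1) := ⟨_, rfl⟩
  have hη0 : 0 < η := by rw [hη]; exact lt_min (by norm_num) (by linarith)
  have hη1 : η ≤ 1 / 2 := by rw [hη]; exact min_le_left _ _
  have hη2 : η ≤ β1 - 1 := by rw [hη]; exact min_le_right _ _
  have hrpos : 0 < |r| := abs_pos.2 hr
  have hr2 : 0 < r ^ 2 := by positivity
  obtain ⟨R, hR⟩ : ∃ R : ℝ, R = |r| / η := ⟨_, rfl⟩
  have hR0 : 0 < R := by rw [hR]; positivity
  obtain ⟨k1', hk1'⟩ := pow_unbounded_of_one_lt R hb1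
  -- the constant loss
  obtain ⟨E, hE⟩ : ∃ E : ℝ, E = 4 * K * (r ^ 2 / β1 ^ 2) := ⟨_, rfl⟩
  have hE0 : 0 < E := by rw [hE, hK]; positivity
  obtain ⟨g0, hg0⟩ := pow_unbounded_of_one_lt (1 / E) hb1
  have hg0' : 1 ≤ E * (b : ℝ) ^ g0 := by
    rw [div_lt_iff₀ hE0] at hg0
    linarith
  obtain ⟨k2, hk2⟩ : ∃ k2, k2 = max k1' (max k0 x0) := ⟨_, rfl⟩
  have hk2R : R ≤ (b : ℝ) ^ k2 :=
    hk1'.le.trans (pow_le_pow_right₀ hb1' (by rw [hk2]; exact le_max_left _ _))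
  have hk20 : k0 ≤ k2 := by rw [hk2]; exact (le_max_left _ _).trans (le_max_right _ _)
  have hk2x : x0 ≤ k2 := by rw [hk2]; exact (le_max_right _ _).trans (le_max_right _ _)
  refine ⟨k2 + g0 + Z0 + 9, fun n Y G hn hY hG hG2 => ?_⟩
  obtain ⟨F, hF⟩ : ∃ F : (ℕ → Fin b) → ℂ, F = fun ω =>
    ee (Y * (x + r * Real.ofDigits ω) ^ n) := ⟨_, rfl⟩
  have hFn : ∀ ω, ‖F ω‖ ≤ 1 := fun ω => by rw [hF]; exact (ee_norm _).le
  have hbm : Measurable fun ω : ℕ → Fin b => x + r * Real.ofDigits ω :=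
    (s_meas.const_mul r).const_add x
  have hFm : Measurable F := by
    rw [hF]
    exact ee_cont.measurable.comp ((hbm.pow_const n).const_mul Y)
  have hn0 : 0 < n := by omega
  have hnR : (0 : ℝ) < n := by exact_mod_cast hn0
  -- the cylinders
  obtain ⟨k, hk⟩ : ∃ k, k = k2 + (Nat.log 2 n + 1) := ⟨_, rfl⟩
  have hbk : R * n ≤ (b : ℝ) ^ k := by
    have h1 : (n : ℝ) ≤ (b : ℝ) ^ (Nat.log 2 n + 1) := by
      calc (n : ℝ) ≤ (2 : ℝ) ^ (Nat.log 2 n + 1) := by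
            exact_mod_cast (Nat.lt_pow_succ_log_self (by norm_num) n).le
        _ ≤ _ := pow_le_pow_left₀ (by norm_num) (by exact_mod_cast hb) _
    rw [hk, pow_add]
    exact mul_le_mul hk2R h1 hnR.le (by positivity)
  obtain ⟨ρ, hρ⟩ : ∃ ρ : ℝ, ρ = |r| * ((b : ℝ) ^ k)⁻¹ := ⟨_, rfl⟩
  have hρ0 : 0 ≤ ρ := by rw [hρ]; positivity
  have hρη : ρ * n ≤ η := by
    rw [hρ, mul_assoc, mul_comm _ (n : ℝ), ← mul_assoc, ← div_eq_mul_inv, div_le_iff₀ (by positivity)]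
    have h1 : |r| = R * η := by rw [hR]; field_simp
    rw [h1]
    calc R * η * n = η * (R * n) := by ring
      _ ≤ η * (b : ℝ) ^ k := by gcongr
  have hρn : ρ * n ≤ 1 := hρη.trans (by linarith)
  have hn1 : (1 : ℝ) ≤ n := by exact_mod_cast hn0
  have hρη' : ρ ≤ η := by nlinarith
  have hmain : ∀ w ∈ cyl k0 w0, ‖∫ ω in cyl k w, F ω ∂(noise d T)‖ ≤
      (16 / (G : ℝ) ^ 4) * (noise d T).real (cyl k w) := by
    intro w hw
    obtain ⟨β0, hβ0d⟩ : ∃ β0 : ℝ, β0 = x + r * Real.ofDigits w := ⟨_, rfl⟩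
    have hβ0' : β1 ≤ β0 := by rw [hβ0d]; exact hβ w hw
    obtain ⟨A, hA⟩ : ∃ A : ℝ, A = Y * r ^ 2 * Pn n (β0 - ρ) := ⟨_, rfl⟩
    have hlow : 1 ≤ β0 - ρ := by linarith
    -- lower bound for `A`
    have hP : β1 ^ n / β1 ^ 2 ≤ Pn n (β0 - ρ) := by
      have h1 : β1 * (1 - ρ) ≤ β0 - ρ := by nlinarith
      have h1' : 0 ≤ 1 - ρ := by linarith
      have h2 : (β1 * (1 - ρ)) ^ (n - 2) ≤ (β0 - ρ) ^ (n - 2) :=
        pow_le_pow_left₀ (mul_nonneg hβ0.le h1') h1 _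
      have h3 : 1 / 2 ≤ (1 - ρ) ^ (n - 2) := by
        have h4 := one_add_mul_le_pow (show (-2 : ℝ) ≤ -ρ by linarith) (n - 2)
        have h5 : (((n - 2 : ℕ) : ℕ) : ℝ) ≤ n := by exact_mod_cast Nat.sub_le _ _
        have h6 : (((n - 2 : ℕ) : ℕ) : ℝ) * ρ ≤ 1 / 2 := by
          calc (((n - 2 : ℕ) : ℕ) : ℝ) * ρ ≤ n * ρ := by gcongr
            _ = ρ * n := mul_comm _ _
            _ ≤ _ := hρη.trans hη1
        rw [← sub_eq_add_neg] at h4
        linarith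
      have h7 : β1 ^ n / β1 ^ 2 = β1 ^ (n - 2) := by
        rw [div_eq_iff (by positivity), ← pow_add, Nat.sub_add_cancel hn]
      rw [h7]
      unfold Pn
      have h8 : (2 : ℝ) ≤ (n : ℝ) * ((n - 1 : ℕ) : ℝ) := by
        have h9 : (2 : ℝ) ≤ n := by exact_mod_cast hn
        have h10 : (1 : ℝ) ≤ ((n - 1 : ℕ) : ℝ) := by exact_mod_cast (by omega : 1 ≤ n - 1)
        nlinarith
      calc β1 ^ (n - 2) = 2 * (β1 ^ (n - 2) * (1 / 2)) := by ring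
        _ ≤ ((n : ℝ) * ((n - 1 : ℕ) : ℝ)) * (β1 ^ (n - 2) * (1 - ρ) ^ (n - 2)) := by gcongr
        _ = ((n : ℝ) * ((n - 1 : ℕ) : ℝ)) * (β1 * (1 - ρ)) ^ (n - 2) := by rw [mul_pow]
        _ ≤ _ := by gcongr
    have hβn : 0 < β1 ^ n / β1 ^ 2 := by positivity
    have hPpos : 0 < Pn n (β0 - ρ) := lt_of_lt_of_le hβn hP
    have hApos : 0 < A := by rw [hA]; positivity
    have hA4 : E * (b : ℝ) ^ G ≤ 4 * K * A := by
      rw [hE, hA]
      calc 4 * K * (r ^ 2 / β1 ^ 2) * (b : ℝ) ^ G ≤ 4 * K * (r ^ 2 / β1 ^ 2) * (Y * β1 ^ n) := by gcongr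
        _ = 4 * K * (Y * r ^ 2 * (β1 ^ n / β1 ^ 2)) := by ring
        _ ≤ 4 * K * (Y * r ^ 2 * Pn n (β0 - ρ)) := by gcongr
    have hGg : g0 ≤ G := by omega
    have hA5 : (b : ℝ) ^ (G - g0) ≤ 4 * K * A := by
      refine le_trans ?_ hA4
      obtain ⟨t, ht⟩ : ∃ t, G = g0 + t := ⟨G - g0, by omega⟩
      have h1 : G - g0 = t := by omega
      rw [h1, ht, pow_add]
      have : (b : ℝ) ^ t * 1 ≤ (b : ℝ) ^ t * (E * (b : ℝ) ^ g0) := by gcongr
      linarith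
    obtain ⟨Z', hZ1, hZ2⟩ := exists_nat_pow_near ((one_le_pow₀ hb1').trans hA5) hb1
    obtain ⟨Z, hZd⟩ : ∃ Z, Z = Z' + 1 := ⟨_, rfl⟩
    have hbZ : (b : ℝ) ^ Z ≤ 4 * K * A * b := by
      rw [hZd, pow_succ]; gcongr
    have hGZ : G - g0 < Z := by
      have h1 : (b : ℝ) ^ (G - g0) < (b : ℝ) ^ Z := hA5.trans_lt (by rw [hZd]; exact hZ2)
      exact (pow_lt_pow_iff_right₀ hb1).1 h1
    have hZ8 : 8 ≤ Z := by omega
    have hZZ0 : Z0 ≤ Z := by omega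
    have hkZ : 8 * k ≤ Z := by omega
    have hGZ2 : G ≤ 2 * Z := by omega
    obtain ⟨L, M, hL, hM, hB⟩ := hZ0 Z hZZ0
    have hun : ∀ u, |u - Real.ofDigits w| ≤ ((b : ℝ) ^ k)⁻¹ → |(x + r * u) - β0| ≤ ρ := by
      intro u hu
      have e1 : (x + r * u) - β0 = r * (u - Real.ofDigits w) := by rw [hβ0d]; ring
      rw [e1, abs_mul, hρ]
      gcongr
    have hest := est hb d T k w
      (fun u => Y * (x + r * u) ^ n)
      (fun u => Y * r * ((n : ℝ) * (x + r * u) ^ (n - 1)))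
      (fun u => Y * r ^ 2 * Pn n (x + r * u)) A K
      (by fun_prop) (by fun_prop)
      (fun u _ => by
        have h1 : HasDerivAt (fun u : ℝ => x + r * u) r u := by
          simpa using ((hasDerivAt_id u).const_mul r).const_add x
        have h2 := (h1.pow n).const_mul Y
        exact h2.congr_deriv (by ring))
      (fun u _ => by
        have h1 : HasDerivAt (fun u : ℝ => x + r * u) r u := by
          simpa using ((hasDerivAt_id u).const_mul r).const_add x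
        have h2 := ((h1.pow (n - 1)).const_mul (n : ℝ)).const_mul (Y * r)
        refine h2.congr_deriv ?_
        unfold Pn
        rw [Nat.sub_sub]
        ring)
      hApos hK1
      (fun u hu => by
        have h1 := abs_le.1 (hun u hu)
        have h3 := Pn_mono n (by linarith : 0 ≤ β0 - ρ) (by linarith : β0 - ρ ≤ x + r * u)
        rw [hA]
        gcongr)
      (fun u hu => by
        have h1 := abs_le.1 (hun u hu)
        have h3 := Pn_ratio n (β1 := β0 - ρ) (β2 := x + r * u) (ρ := ρ) (by linarith) hρ0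
          (by linarith) (by linarith) hρn
        rw [hA, hK]
        calc Y * r ^ 2 * Pn n (x + r * u) ≤ Y * r ^ 2 * (8 * Pn n (β0 - ρ)) := by gcongr
          _ = 8 * (Y * r ^ 2 * Pn n (β0 - ρ)) := by ring)
      s0 hs0 L Z M
      (fun x' hx1 hx2 => hx0 Z L hL x' (hk2x.trans (by omega)) hx2)
      (by rw [hZd]; exact hZ2.le) hbZ hZ8 (hM k hkZ)
    rw [hF]
    refine hest.trans (mul_le_mul_of_nonneg_right (hB.trans ?_) measureReal_nonneg)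
    have hGpos : (0 : ℝ) < G := by exact_mod_cast (by omega : 0 < G)
    have hZpos : (0 : ℝ) < Z := by exact_mod_cast (by omega : 0 < Z)
    have hGZR : (G : ℝ) ≤ 2 * Z := by exact_mod_cast hGZ2
    rw [inv_eq_one_div, div_le_div_iff₀ (by positivity) (by positivity), one_mul]
    calc (G : ℝ) ^ 4 ≤ (2 * Z) ^ 4 := pow_le_pow_left₀ hGpos.le hGZR 4
      _ = 16 * (Z : ℝ) ^ 4 := by ring
  obtain ⟨j, hj⟩ : ∃ j, k = k0 + j := ⟨k - k0, by omega⟩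
  have h1 := refine_cyl hb d T F hFm hFn (16 / (G : ℝ) ^ 4) j k0 w0 (by
    intro w hw
    rw [← hj]
    exact hmain w hw)
  rw [hF] at h1
  refine h1.trans ?_
  calc (16 / (G : ℝ) ^ 4) * (noise d T).real (cyl k0 w0) ≤ (16 / (G : ℝ) ^ 4) * 1 := by
        gcongr
        exact measureReal_le_one
    _ = _ := mul_one _

end Q83.NR
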