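import Pool.Agent.Q83.NR.A

/-!
# Fourth moments of geometric exponential sums
-/

set_option autoImplicit false
set_option linter.unusedSectionVars false

open MeasureTheory Filter Topology Finset
open scoped ENNReal
open Pool.Agent.H493R3 (ee ee_norm ee_add ee_neg ee_int ee_lip)
open Q83.NP Q83.NQ

namespace Q83.NR

/-- equal or both at most `K` -/
def Wp (K a c : ℕ) : Prop := a = c ∨ (a ≤ K ∧ c ≤ K)

lemma pdiff {Q : ℝ} (hQ : 4 ≤ Q) (K a c : ℕ) : Wp K a c ∨ Q ^ K ≤ |Q ^ a - Q ^ c| := by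
  have hQ1 : 1 ≤ Q := by linarith
  have key : ∀ a c : ℕ, c < a → ¬ Wp K a c → Q ^ K ≤ Q ^ a - Q ^ c := by
    intro a c hca hw
    have h1 : K < a := by
      by_contra h
      exact hw (Or.inr ⟨by omega, by omega⟩)
    have h2 : Q ^ c ≤ Q ^ (a - 1) := pow_le_pow_right₀ hQ1 (by omega)
    have h3 : Q ^ K ≤ Q ^ (a - 1) := pow_le_pow_right₀ hQ1 (by omega)
    have h4 : Q ^ a = Q * Q ^ (a - 1) := by
      rw [← pow_succ', Nat.sub_add_cancel (by omega)]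
    have h5 : 0 < Q ^ (a - 1) := by positivity
    rw [h4]; nlinarith
  by_cases hw : Wp K a c
  · exact Or.inl hw
  · right
    rcases lt_trichotomy a c with h | h | h
    · have hw' : ¬ Wp K c a := by
        rintro (h1 | h1)
        · exact hw (Or.inl h1.symm)
        · exact hw (Or.inr ⟨h1.2, h1.1⟩)
      have := key c a h hw'
      rw [abs_sub_comm]
      exact this.trans (le_abs_self _)
    · exact absurd (Or.inl h) hw
    · exact (key a c h hw).trans (le_abs_self _)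

lemma quad {Q : ℝ} (hQ : 4 ≤ Q) (K a1 a2 a3 a4 : ℕ) :
    (Wp K a1 a3 ∧ Wp K a2 a4) ∨ (Wp K a1 a4 ∧ Wp K a2 a3) ∨
      Q ^ K ≤ |Q ^ a1 + Q ^ a2 - Q ^ a3 - Q ^ a4| := by
  have hQ1 : 1 ≤ Q := by linarith
  by_cases h13 : a1 = a3
  · subst h13
    rcases pdiff hQ K a2 a4 with h | h
    · exact Or.inl ⟨Or.inl rfl, h⟩
    · right; right
      have e : Q ^ a1 + Q ^ a2 - Q ^ a1 - Q ^ a4 = Q ^ a2 - Q ^ a4 := by ring
      rwa [e]
  by_cases h24 : a2 = a4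
  · subst h24
    rcases pdiff hQ K a1 a3 with h | h
    · exact Or.inl ⟨h, Or.inl rfl⟩
    · right; right
      have e : Q ^ a1 + Q ^ a2 - Q ^ a3 - Q ^ a2 = Q ^ a1 - Q ^ a3 := by ring
      rwa [e]
  by_cases h14 : a1 = a4
  · subst h14
    rcases pdiff hQ K a2 a3 with h | h
    · exact Or.inr (Or.inl ⟨Or.inl rfl, h⟩)
    · right; right
      have e : Q ^ a1 + Q ^ a2 - Q ^ a3 - Q ^ a1 = Q ^ a2 - Q ^ a3 := by ring
      rwa [e]
  by_cases h23 : a2 = a3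
  · subst h23
    rcases pdiff hQ K a1 a4 with h | h
    · exact Or.inr (Or.inl ⟨h, Or.inl rfl⟩)
    · right; right
      have e : Q ^ a1 + Q ^ a2 - Q ^ a2 - Q ^ a4 = Q ^ a1 - Q ^ a4 := by ring
      rwa [e]
  by_cases hall : a1 ≤ K ∧ a2 ≤ K ∧ a3 ≤ K ∧ a4 ≤ K
  · exact Or.inl ⟨Or.inr ⟨hall.1, hall.2.2.1⟩, Or.inr ⟨hall.2.1, hall.2.2.2⟩⟩
  right; right
  have key : ∀ c1 c2 c3 c4 : ℕ, c3 < c1 → c4 < c1 → K < c1 →
      Q ^ K ≤ Q ^ c1 + Q ^ c2 - Q ^ c3 - Q ^ c4 := by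
    intro c1 c2 c3 c4 h3 h4 hK
    have g3 : Q ^ c3 ≤ Q ^ (c1 - 1) := pow_le_pow_right₀ hQ1 (by omega)
    have g4 : Q ^ c4 ≤ Q ^ (c1 - 1) := pow_le_pow_right₀ hQ1 (by omega)
    have gK : Q ^ K ≤ Q ^ (c1 - 1) := pow_le_pow_right₀ hQ1 (by omega)
    have g1 : Q ^ c1 = Q * Q ^ (c1 - 1) := by
      rw [← pow_succ', Nat.sub_add_cancel (by omega)]
    have g5 : 0 < Q ^ (c1 - 1) := by positivity
    have g2 : 0 < Q ^ c2 := by positivity
    rw [g1]; nlinarith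
  have hcase : (a3 < a1 ∧ a4 < a1 ∧ K < a1) ∨ (a3 < a2 ∧ a4 < a2 ∧ K < a2) ∨
      (a1 < a3 ∧ a2 < a3 ∧ K < a3) ∨ (a1 < a4 ∧ a2 < a4 ∧ K < a4) := by omega
  rcases hcase with h | h | h | h
  · exact (key a1 a2 a3 a4 h.1 h.2.1 h.2.2).trans (le_abs_self _)
  · have := key a2 a1 a3 a4 h.1 h.2.1 h.2.2
    refine (this.trans (le_of_eq (by ring))).trans (le_abs_self _)
  · have := key a3 a4 a1 a2 h.1 h.2.1 h.2.2
    rw [← abs_neg]
    refine (this.trans (le_of_eq (by ring))).trans (le_abs_self _)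
  · have := key a4 a3 a1 a2 h.1 h.2.1 h.2.2
    rw [← abs_neg]
    refine (this.trans (le_of_eq (by ring))).trans (le_abs_self _)

open Classical in
/-- the indicator of `Wp` -/
noncomputable def Wi (K a c : ℕ) : ℝ := if Wp K a c then 1 else 0

lemma Wi_nonneg (K a c : ℕ) : 0 ≤ Wi K a c := by unfold Wi; split_ifs <;> norm_num

lemma Wi_one {K a c : ℕ} (h : Wp K a c) : Wi K a c = 1 := by unfold Wi; rw [if_pos h]

lemma Wi_sum (K I : ℕ) : ∑ a ∈ range I, ∑ c ∈ range I, Wi K a c ≤ I + ((K : ℝ) + 1) ^ 2 := by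
  have h1 : ∀ a c, Wi K a c ≤ (if a = c then 1 else 0) + (if a ≤ K then (1 : ℝ) else 0) * (if c ≤ K then 1 else 0) := by
    intro a c
    unfold Wi
    split_ifs with g1 g2 g3 g4 g5 g6 <;> norm_num
    all_goals
      rcases g1 with h | h
      · exact absurd h g2
      · omega
  have h2 : ∑ a ∈ range I, (if a ≤ K then (1 : ℝ) else 0) ≤ (K : ℝ) + 1 := by
    rw [← Finset.sum_filter, Finset.sum_const, nsmul_eq_mul, mul_one]
    have h3 : ((range I).filter fun a => a ≤ K).card ≤ (range (K + 1)).card :=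
      Finset.card_le_card fun a ha => by
        rw [Finset.mem_filter] at ha
        exact Finset.mem_range.2 (by omega)
    rw [card_range] at h3
    exact_mod_cast h3
  have h4 : 0 ≤ ∑ a ∈ range I, (if a ≤ K then (1 : ℝ) else 0) :=
    Finset.sum_nonneg fun a _ => by split_ifs <;> norm_num
  calc ∑ a ∈ range I, ∑ c ∈ range I, Wi K a c
      ≤ ∑ a ∈ range I, ∑ c ∈ range I, ((if a = c then 1 else 0) +
        (if a ≤ K then (1 : ℝ) else 0) * (if c ≤ K then 1 else 0)) :=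
        Finset.sum_le_sum fun a _ => Finset.sum_le_sum fun c _ => h1 a c
    _ = ∑ a ∈ range I, ∑ c ∈ range I, (if a = c then (1 : ℝ) else 0) +
        (∑ a ∈ range I, (if a ≤ K then (1 : ℝ) else 0)) * ∑ c ∈ range I, (if c ≤ K then (1 : ℝ) else 0) := by
        rw [Finset.sum_mul_sum]
        simp only [Finset.sum_add_distrib]
    _ ≤ I + ((K : ℝ) + 1) ^ 2 := by
        refine add_le_add ?_ ?_
        · calc ∑ a ∈ range I, ∑ c ∈ range I, (if a = c then (1 : ℝ) else 0)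
              ≤ ∑ _a ∈ range I, (1 : ℝ) := by
                refine Finset.sum_le_sum fun i hi => ?_
                rw [Finset.sum_ite_eq]
                split_ifs <;> norm_num
            _ = I := by simp
        · rw [sq]
          exact mul_le_mul h2 h2 h4 (by positivity)

variable {Ω : Type*} [MeasurableSpace Ω]

/-- the fourth moment as a sum over quadruples -/
theorem four_expand (μ : Measure Ω) [IsFiniteMeasure μ] (φ : ℕ → Ω → ℝ) (hφ : ∀ j, Measurable (φ j)) (I : ℕ) :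
    ∫ ω, ‖∑ j ∈ range I, ee (φ j ω)‖ ^ 4 ∂μ ≤
      ∑ a1 ∈ range I, ∑ a2 ∈ range I, ∑ a3 ∈ range I, ∑ a4 ∈ range I,
        ‖∫ ω, ee (φ a1 ω + φ a2 ω - φ a3 ω - φ a4 ω) ∂μ‖ := by
  have hm : ∀ a1 a2 a3 a4, Measurable fun ω => ee (φ a1 ω + φ a2 ω - φ a3 ω - φ a4 ω) := fun a1 a2 a3 a4 =>
    ee_cont.measurable.comp ((((hφ a1).add (hφ a2)).sub (hφ a3)).sub (hφ a4))
  have hint : ∀ a1 a2 a3 a4, Integrable (fun ω => ee (φ a1 ω + φ a2 ω - φ a3 ω - φ a4 ω)) μ :=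
    fun a1 a2 a3 a4 => Integrable.of_bound (hm a1 a2 a3 a4).aestronglyMeasurable 1
      (Eventually.of_forall fun ω => (ee_norm _).le)
  have hpt : ∀ ω, ((‖∑ j ∈ range I, ee (φ j ω)‖ ^ 4 : ℝ) : ℂ) =
      ∑ a1 ∈ range I, ∑ a2 ∈ range I, ∑ a3 ∈ range I, ∑ a4 ∈ range I,
        ee (φ a1 ω + φ a2 ω - φ a3 ω - φ a4 ω) := by
    intro ω
    obtain ⟨S, hS⟩ : ∃ S : ℂ, S = ∑ j ∈ range I, ee (φ j ω) := ⟨_, rfl⟩
    have e1 : ((‖S‖ ^ 4 : ℝ) : ℂ) = (S * S) * ((starRingEnd ℂ) S * (starRingEnd ℂ) S) := by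
      have := Complex.mul_conj' S
      push_cast
      calc (‖S‖ : ℂ) ^ 4 = (‖S‖ ^ 2 : ℂ) * (‖S‖ ^ 2 : ℂ) := by ring
        _ = (S * (starRingEnd ℂ) S) * (S * (starRingEnd ℂ) S) := by rw [this]
        _ = _ := by ring
    rw [← hS, e1, hS, map_sum, Finset.sum_mul_sum, Finset.sum_mul_sum]
    rw [Finset.sum_mul]
    refine Finset.sum_congr rfl fun a1 _ => ?_
    rw [Finset.sum_mul]
    refine Finset.sum_congr rfl fun a2 _ => ?_
    rw [Finset.mul_sum]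
    refine Finset.sum_congr rfl fun a3 _ => ?_
    rw [Finset.mul_sum]
    refine Finset.sum_congr rfl fun a4 _ => ?_
    rw [← ee_neg, ← ee_neg, ← ee_add, ← ee_add, ← ee_add]
    congr 1; ring
  have hI : ((∫ ω, ‖∑ j ∈ range I, ee (φ j ω)‖ ^ 4 ∂μ : ℝ) : ℂ) =
      ∑ a1 ∈ range I, ∑ a2 ∈ range I, ∑ a3 ∈ range I, ∑ a4 ∈ range I,
        ∫ ω, ee (φ a1 ω + φ a2 ω - φ a3 ω - φ a4 ω) ∂μ := by
    have h1 := integral_ofReal (𝕜 := ℂ) (f := fun ω => ‖∑ j ∈ range I, ee (φ j ω)‖ ^ 4) (μ := μ)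
    refine h1.symm.trans ?_
    refine (congrArg (fun f : Ω → ℂ => ∫ ω, f ω ∂μ) (funext hpt)).trans ?_
    rw [integral_finsetSum _ fun a1 _ => integrable_finsetSum _ fun a2 _ => integrable_finsetSum _ fun a3 _ =>
      integrable_finsetSum _ fun a4 _ => hint a1 a2 a3 a4]
    refine Finset.sum_congr rfl fun a1 _ => ?_
    rw [integral_finsetSum _ fun a2 _ => integrable_finsetSum _ fun a3 _ =>
      integrable_finsetSum _ fun a4 _ => hint a1 a2 a3 a4]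
    refine Finset.sum_congr rfl fun a2 _ => ?_
    rw [integral_finsetSum _ fun a3 _ => integrable_finsetSum _ fun a4 _ => hint a1 a2 a3 a4]
    refine Finset.sum_congr rfl fun a3 _ => ?_
    rw [integral_finsetSum _ fun a4 _ => hint a1 a2 a3 a4]
  have h1 : 0 ≤ ∫ ω, ‖∑ j ∈ range I, ee (φ j ω)‖ ^ 4 ∂μ := integral_nonneg fun ω => by positivity
  have h2 : ‖((∫ ω, ‖∑ j ∈ range I, ee (φ j ω)‖ ^ 4 ∂μ : ℝ) : ℂ)‖ =
      ∫ ω, ‖∑ j ∈ range I, ee (φ j ω)‖ ^ 4 ∂μ := by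
    rw [Complex.norm_real, Real.norm_of_nonneg h1]
  rw [← h2, hI]
  refine (norm_sum_le _ _).trans (Finset.sum_le_sum fun a1 _ => ?_)
  refine (norm_sum_le _ _).trans (Finset.sum_le_sum fun a2 _ => ?_)
  refine (norm_sum_le _ _).trans (Finset.sum_le_sum fun a3 _ => ?_)
  exact norm_sum_le _ _

/-- **Fourth moment of a geometric exponential sum.** -/
theorem fourth (μ : Measure Ω) [IsFiniteMeasure μ] (hμ : μ.real Set.univ ≤ 1) (g : Ω → ℝ) (hg : Measurable g)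
    (a Q : ℝ) (hQ : 4 ≤ Q) (K I : ℕ) (B : ℝ) (hB0 : 0 ≤ B)
    (hB : ∀ V : ℝ, Q ^ K ≤ V → ‖∫ ω, ee (a * V * g ω) ∂μ‖ ≤ B) :
    ∫ ω, ‖∑ m ∈ range I, ee (a * Q ^ m * g ω)‖ ^ 4 ∂μ ≤ 2 * (I + ((K : ℝ) + 1) ^ 2) ^ 2 + (I : ℝ) ^ 4 * B := by
  have h1 := four_expand μ (fun m ω => a * Q ^ m * g ω) (fun m => hg.const_mul _) I
  refine h1.trans ?_
  have hone : ∀ θ : Ω → ℝ, ‖∫ ω, ee (θ ω) ∂μ‖ ≤ 1 := by
    intro θ
    refine (norm_integral_le_of_norm_le_const (C := 1) (Eventually.of_forall fun ω => (ee_norm _).le)).trans ?_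
    rw [one_mul]; exact hμ
  have hpt : ∀ a1 a2 a3 a4 : ℕ, ‖∫ ω, ee (a * Q ^ a1 * g ω + a * Q ^ a2 * g ω - a * Q ^ a3 * g ω -
      a * Q ^ a4 * g ω) ∂μ‖ ≤ Wi K a1 a3 * Wi K a2 a4 + Wi K a1 a4 * Wi K a2 a3 + B := by
    intro a1 a2 a3 a4
    have hn1 := mul_nonneg (Wi_nonneg K a1 a3) (Wi_nonneg K a2 a4)
    have hn2 := mul_nonneg (Wi_nonneg K a1 a4) (Wi_nonneg K a2 a3)
    rcases quad hQ K a1 a2 a3 a4 with h | h | h
    · rw [Wi_one h.1, Wi_one h.2]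
      have := hone (fun ω => a * Q ^ a1 * g ω + a * Q ^ a2 * g ω - a * Q ^ a3 * g ω - a * Q ^ a4 * g ω)
      linarith
    · rw [Wi_one h.1, Wi_one h.2]
      have := hone (fun ω => a * Q ^ a1 * g ω + a * Q ^ a2 * g ω - a * Q ^ a3 * g ω - a * Q ^ a4 * g ω)
      linarith
    · refine le_trans ?_ (by linarith : B ≤ _)
      obtain ⟨V, hV⟩ : ∃ V, V = Q ^ a1 + Q ^ a2 - Q ^ a3 - Q ^ a4 := ⟨_, rfl⟩
      rw [← hV] at h
      have e1 : ∀ ω, a * Q ^ a1 * g ω + a * Q ^ a2 * g ω - a * Q ^ a3 * g ω - a * Q ^ a4 * g ω =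
          a * V * g ω := fun ω => by rw [hV]; ring
      simp_rw [e1]
      rcases le_total 0 V with hV0 | hV0
      · rw [abs_of_nonneg hV0] at h
        exact hB V h
      · rw [abs_of_nonpos hV0] at h
        have h2 := hB (-V) h
        have e2 : ‖∫ ω, ee (a * V * g ω) ∂μ‖ = ‖∫ ω, ee (a * -V * g ω) ∂μ‖ := by
          rw [← norm_conj_int]
          congr 1
          refine integral_congr_ae (Eventually.of_forall fun ω => ?_)
          simp only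
          congr 1; ring
        rw [e2]; exact h2
  refine (Finset.sum_le_sum fun a1 _ => Finset.sum_le_sum fun a2 _ => Finset.sum_le_sum fun a3 _ =>
    Finset.sum_le_sum fun a4 _ => hpt a1 a2 a3 a4).trans ?_
  obtain ⟨P, hP⟩ : ∃ P, P = ∑ a ∈ range I, ∑ c ∈ range I, Wi K a c := ⟨_, rfl⟩
  have hP1 : P ≤ I + ((K : ℝ) + 1) ^ 2 := by rw [hP]; exact Wi_sum K I
  have hP0 : 0 ≤ P := by
    rw [hP]
    exact Finset.sum_nonneg fun a _ => Finset.sum_nonneg fun c _ => Wi_nonneg K a c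
  simp only [Finset.sum_add_distrib]
  have s1 : ∑ a1 ∈ range I, ∑ a2 ∈ range I, ∑ a3 ∈ range I, ∑ a4 ∈ range I, Wi K a1 a3 * Wi K a2 a4 = P * P := by
    rw [hP, Finset.sum_mul_sum]
    refine Finset.sum_congr rfl fun a1 _ => Finset.sum_congr rfl fun a2 _ => ?_
    rw [Finset.sum_mul_sum]
  have s2 : ∑ a1 ∈ range I, ∑ a2 ∈ range I, ∑ a3 ∈ range I, ∑ a4 ∈ range I, Wi K a1 a4 * Wi K a2 a3 = P * P := by
    rw [hP, Finset.sum_mul_sum]
    refine Finset.sum_congr rfl fun a1 _ => Finset.sum_congr rfl fun a2 _ => ?_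
    rw [Finset.sum_mul_sum, Finset.sum_comm]
  have s3 : ∑ _a1 ∈ range I, ∑ _a2 ∈ range I, ∑ _a3 ∈ range I, ∑ _a4 ∈ range I, B = (I : ℝ) ^ 4 * B := by
    simp only [Finset.sum_const, card_range, nsmul_eq_mul]
    ring
  rw [s1, s2, s3]
  have : P * P ≤ (I + ((K : ℝ) + 1) ^ 2) ^ 2 := by
    rw [← sq]; exact pow_le_pow_left₀ hP0 hP1 2
  linarith

end Q83.NR
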