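import Pool.Agent.Q83.NR.B

/-!
# Digits of powers: the exponential sums are small for all large exponents
-/

set_option autoImplicit false
set_option linter.unusedSectionVars false

open MeasureTheory Filter Topology Finset
open scoped ENNReal
open Pool.Agent.H493R3 (ee ee_norm ee_add ee_neg ee_int ee_lip)
open Q83.NP Q83.NQ

namespace Q83.NR

/-- summable means force convergence to zero -/
theorem ae_of_moment {Ω : Type*} [MeasurableSpace Ω] (μ : Measure Ω) [IsFiniteMeasure μ] (f : ℕ → Ω → ℝ)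
    (hf : ∀ n, Measurable (f n)) (h0 : ∀ n ω, 0 ≤ f n ω) (h1 : ∀ n, Integrable (f n) μ) (C : ℝ) (n0 : ℕ)
    (hC : ∀ n, n0 ≤ n → ∫ ω, f n ω ∂μ ≤ C / (n : ℝ) ^ 2) :
    ∀ᵐ ω ∂μ, Tendsto (fun n => f n ω) atTop (𝓝 0) := by
  have hsum : Summable fun n : ℕ => C / ((n + n0 : ℕ) : ℝ) ^ 2 := by
    have h2 : Summable fun n : ℕ => C * (1 / (n : ℝ) ^ 2) :=
      ((Real.summable_one_div_nat_pow (p := 2)).2 (by norm_num)).mul_left C
    have h3 := (summable_nat_add_iff n0).2 h2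
    refine h3.congr fun n => by ring
  have hlin : ∫⁻ ω, ∑' n : ℕ, ENNReal.ofReal (f (n + n0) ω) ∂μ ≠ ∞ := by
    rw [lintegral_tsum fun n => (hf _).ennreal_ofReal.aemeasurable]
    have h2 : ∀ n : ℕ, ∫⁻ ω, ENNReal.ofReal (f (n + n0) ω) ∂μ ≤
        ENNReal.ofReal (C / ((n + n0 : ℕ) : ℝ) ^ 2) := by
      intro n
      rw [← ofReal_integral_eq_lintegral_ofReal (h1 _) (Eventually.of_forall fun ω => h0 _ ω)]
      exact ENNReal.ofReal_le_ofReal (hC _ (by omega))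
    refine ne_top_of_le_ne_top ?_ (ENNReal.tsum_le_tsum h2)
    have hpos : ∀ n : ℕ, 0 ≤ C / ((n + n0 : ℕ) : ℝ) ^ 2 := by
      intro n
      refine le_trans ?_ (hC (n + n0) (by omega))
      exact integral_nonneg fun ω => h0 _ ω
    rw [← ENNReal.ofReal_tsum_of_nonneg hpos hsum]
    exact ENNReal.ofReal_ne_top
  have hm : Measurable fun ω => ∑' n : ℕ, ENNReal.ofReal (f (n + n0) ω) :=
    Measurable.tsum fun n => (hf _).ennreal_ofReal
  filter_upwards [ae_lt_top hm hlin] with ω hω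
  have h2 := ENNReal.tendsto_atTop_zero_of_tsum_ne_top hω.ne
  have h3 : Tendsto (fun n : ℕ => (ENNReal.ofReal (f (n + n0) ω)).toReal) atTop (𝓝 0) := by
    have h5 := (ENNReal.tendsto_toReal ENNReal.zero_ne_top).comp h2
    rw [ENNReal.toReal_zero] at h5
    exact h5
  have h4 : Tendsto (fun n : ℕ => f (n + n0) ω) atTop (𝓝 0) :=
    h3.congr fun n => ENNReal.toReal_ofReal (h0 _ ω)
  exact (tendsto_add_atTop_iff_nat (f := fun n => f n ω) n0).1 h4

lemma root_tendsto {f : ℕ → ℝ} (h0 : ∀ n, 0 ≤ f n) (h : Tendsto (fun n => f n ^ 4) atTop (𝓝 0)) :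
    Tendsto f atTop (𝓝 0) := by
  rw [Metric.tendsto_atTop] at h ⊢
  intro ε hε
  obtain ⟨N, hN⟩ := h (ε ^ 4) (by positivity)
  refine ⟨N, fun n hn => ?_⟩
  have h1 := hN n hn
  rw [Real.dist_eq, sub_zero, abs_of_nonneg (by positivity)] at h1
  rw [Real.dist_eq, sub_zero, abs_of_nonneg (h0 n)]
  exact lt_of_pow_lt_pow_left₀ 4 hε.le h1

lemma even_odd (z : ℕ → ℂ) (I : ℕ) : ∑ j ∈ range I, z j =
    ∑ m ∈ range ((I + 1) / 2), z (2 * m) + ∑ m ∈ range (I / 2), z (2 * m + 1) := by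
  induction I with
  | zero => simp
  | succ I ih =>
    rw [Finset.sum_range_succ, ih]
    rcases Nat.even_or_odd I with ⟨t, ht⟩ | ⟨t, ht⟩
    · have e1 : (I + 1) / 2 = t := by omega
      have e2 : (I + 1 + 1) / 2 = t + 1 := by omega
      have e3 : I / 2 = t := by omega
      rw [e1, e2, e3, Finset.sum_range_succ _ t, show I = 2 * t by omega]
      ring
    · have e1 : (I + 1) / 2 = t + 1 := by omega
      have e2 : (I + 1 + 1) / 2 = t + 1 := by omega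
      have e3 : I / 2 = t := by omega
      rw [e1, e2, e3, Finset.sum_range_succ (fun m => z (2 * m + 1)) t, show I = 2 * t + 1 by omega]
      ring

/-- logarithms are small compared with square roots, for natural numbers -/
lemma log_sqrt (a k1 : ℕ) : ∀ᶠ n : ℕ in atTop, a * (k1 + Nat.log 2 n) ≤ Nat.sqrt n := by
  have h6 : (fun x : ℝ => (a * k1 + 1 : ℝ) + 2 * a * Real.log x) =o[atTop] fun x : ℝ => x ^ (1 / 2 : ℝ) := by
    have h7 : (fun _ : ℝ => (a * k1 + 1 : ℝ)) =o[atTop] fun x : ℝ => x ^ (1 / 2 : ℝ) := by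
      rw [Asymptotics.isLittleO_const_left]
      right
      exact tendsto_norm_atTop_atTop.comp (tendsto_rpow_atTop (by norm_num))
    exact h7.add ((isLittleO_log_rpow_atTop (by norm_num)).const_mul_left _)
  have h8 := h6.bound one_pos
  filter_upwards [tendsto_natCast_atTop_atTop.eventually h8, eventually_ge_atTop 1] with n hn hn1
  have hnR : (1 : ℝ) ≤ n := by exact_mod_cast hn1
  rw [Real.norm_eq_abs, Real.norm_eq_abs, one_mul, abs_of_nonneg (by positivity : (0 : ℝ) ≤ (n : ℝ) ^ (1 / 2 : ℝ)),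
    ← Real.sqrt_eq_rpow] at hn
  have h9 := (le_abs_self _).trans hn
  have h10 : ((Nat.log 2 n : ℕ) : ℝ) ≤ 2 * Real.log n := by
    have h11 : (2 : ℝ) ^ (Nat.log 2 n) ≤ n := by
      exact_mod_cast Nat.pow_log_le_self 2 (by omega)
    have h12 := Real.log_le_log (by positivity) h11
    rw [Real.log_pow] at h12
    have h13 := Real.log_two_gt_d9
    nlinarith [Nat.cast_nonneg (α := ℝ) (Nat.log 2 n)]
  have h11 : Real.sqrt n ≤ (Nat.sqrt n : ℝ) + 1 := by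
    rw [Real.sqrt_le_left (by positivity)]
    have := Nat.lt_succ_sqrt n
    have h12 : n ≤ (Nat.sqrt n + 1) * (Nat.sqrt n + 1) := this.le
    have h13 : (n : ℝ) ≤ ((Nat.sqrt n : ℝ) + 1) * ((Nat.sqrt n : ℝ) + 1) := by exact_mod_cast h12
    nlinarith
  have h14 : ((a * (k1 + Nat.log 2 n) : ℕ) : ℝ) ≤ (Nat.sqrt n : ℝ) := by
    push_cast
    have : (a : ℝ) * (Nat.log 2 n : ℝ) ≤ a * (2 * Real.log n) := by gcongr
    nlinarith
  exact_mod_cast h14

variable {b : ℕ} [NeZero b]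

/-- one residue class of the places -/
theorem class_small (hb : 2 ≤ b) (d : ℕ → Fin b) (T : Set ℕ) (c : ℝ) (hc0 : 0 ≤ c) (hc : c < 1 / 2)
    (hT : Recurs b c T) (x r ξ β1 : ℝ) (hr : r ≠ 0) (hξ : 0 < ξ) (hβ1 : 1 < β1) (k0 : ℕ) (w0 : ℕ → Fin b)
    (hβ : ∀ ω ∈ cyl k0 w0, β1 ≤ x + r * Real.ofDigits ω) (q : ℕ) (hq : 2 ≤ q) (h : ℕ) (hh : 1 ≤ h)
    (I J : ℕ → ℕ) (hI : I = fun n : ℕ => ⌊(n : ℝ) * Real.logb q β1⌋₊) (hJ : ∀ n, J n ≤ I n) (s : ℕ) :
    ∀ᵐ ω ∂((noise d T).restrict (cyl k0 w0)), Tendsto (fun n : ℕ =>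
      ‖∑ m ∈ range (J n), ee (h * ξ * (q : ℝ) ^ s / (q : ℝ) ^ I n * ((q : ℝ) ^ 2) ^ m *
        (x + r * Real.ofDigits ω) ^ n)‖ / n) atTop (𝓝 0) := by
  have hn' := noise_prob hb d T
  have hb0 : (0 : ℝ) < b := by exact_mod_cast (by omega : 0 < b)
  have hb1 : (1 : ℝ) ≤ b := by exact_mod_cast (by omega : 1 ≤ b)
  have hq0 : (0 : ℝ) < q := by exact_mod_cast (by omega : 0 < q)
  have hq1 : (1 : ℝ) < q := by exact_mod_cast (by omega : 1 < q)
  have hq2 : (2 : ℝ) ≤ q := by exact_mod_cast hq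
  obtain ⟨μ, hμd⟩ : ∃ μ, μ = (noise d T).restrict (cyl k0 w0) := ⟨_, rfl⟩
  have hμf : IsFiniteMeasure μ := by rw [hμd]; infer_instance
  have hμ : μ.real Set.univ ≤ 1 := by
    rw [hμd, measureReal_restrict_apply_univ]
    exact measureReal_le_one
  obtain ⟨lam, hlam⟩ : ∃ lam, lam = Real.logb q β1 := ⟨_, rfl⟩
  have hlam0 : 0 < lam := by rw [hlam]; exact Real.logb_pos hq1 hβ1
  have hIn : ∀ n, (I n : ℝ) ≤ lam * n := by
    intro n
    rw [hI]
    have := Nat.floor_le (show 0 ≤ (n : ℝ) * Real.logb q β1 by rw [← hlam]; positivity)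
    rw [hlam]; linarith
  have hqI : ∀ n, (q : ℝ) ^ I n ≤ β1 ^ n := by
    intro n
    calc (q : ℝ) ^ I n = (q : ℝ) ^ ((I n : ℕ) : ℝ) := (Real.rpow_natCast _ _).symm
      _ ≤ (q : ℝ) ^ (lam * n) := Real.rpow_le_rpow_of_exponent_le hq1.le (hIn n)
      _ = β1 ^ n := by
          rw [Real.rpow_mul hq0.le, hlam, Real.rpow_logb hq0 hq1.ne' (by linarith), Real.rpow_natCast]
  obtain ⟨k1, hk1⟩ := pw1 hb d T c hc0 hc hT x r β1 hr hβ1 k0 w0 hβ
  obtain ⟨C, hC⟩ : ∃ C : ℝ, C = 2 * (lam + 4) ^ 2 + 256 * (2 * b) ^ 4 * lam ^ 4 := ⟨_, rfl⟩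
  -- the moments
  obtain ⟨kξ, hkξ⟩ := pow_unbounded_of_one_lt (1 / ξ) (one_lt_two : (1 : ℝ) < 2)
  have hev : ∀ᶠ n : ℕ in atTop, ∫ ω, (‖∑ m ∈ range (J n), ee (h * ξ * (q : ℝ) ^ s / (q : ℝ) ^ I n *
      ((q : ℝ) ^ 2) ^ m * (x + r * Real.ofDigits ω) ^ n)‖ / n) ^ 4 ∂μ ≤ C / (n : ℝ) ^ 2 := by
    filter_upwards [log_sqrt (16 * b) (k1 + kξ + 1), eventually_ge_atTop 2] with n hn hn2
    have hnR : (0 : ℝ) < n := by exact_mod_cast (by omega : 0 < n)
    obtain ⟨K, hK⟩ : ∃ K, K = Nat.sqrt n := ⟨_, rfl⟩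
    rw [← hK] at hn
    have hbk : 16 * b * (k1 + kξ + 1) ≤ K := by
      refine le_trans (Nat.mul_le_mul_left _ (by omega)) hn
    have hb16 : 16 * b ≤ K := by
      refine le_trans ?_ hbk
      exact Nat.le_mul_of_pos_right _ (by omega)
    have hkK : kξ ≤ K := by
      refine le_trans ?_ hbk
      have : 1 * (k1 + kξ + 1) ≤ 16 * b * (k1 + kξ + 1) := Nat.mul_le_mul_right _ (by omega)
      omega
    have hK1 : 1 ≤ K := by omega
    obtain ⟨G, hG⟩ : ∃ G, G = K / b := ⟨_, rfl⟩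
    have hGb : G * b ≤ K := by rw [hG]; exact Nat.div_mul_le_self K b
    have hGb2 : K < (G + 1) * b := by
      rw [hG]; exact Nat.lt_mul_of_div_lt (Nat.lt_succ_self _) (by omega)
    have hG16 : 16 * (k1 + Nat.log 2 n) ≤ G := by
      rw [hG, Nat.le_div_iff_mul_le (by omega)]
      refine le_trans ?_ hn
      have : 16 * (k1 + Nat.log 2 n) * b = 16 * b * (k1 + Nat.log 2 n) := by ring
      rw [this]
      exact Nat.mul_le_mul_left _ (by omega)
    have hKG : K ≤ 2 * b * G := by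
      have : (G + 1) * b = G * b + b := by ring
      have h2 : 2 * b * G = 2 * (G * b) := by ring
      rw [h2]; omega
    have hnK : n ≤ 4 * K ^ 2 := by
      have h1 : n < (K + 1) * (K + 1) := by rw [hK]; exact Nat.lt_succ_sqrt n
      nlinarith
    have hKn : K ^ 2 ≤ n := by
      rw [hK, sq]; exact Nat.sqrt_le n
    have hG0 : (0 : ℝ) < G := by
      have : 0 < G := by
        by_contra hcon
        have : G = 0 := by omega
        rw [this] at hKG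
        omega
      exact_mod_cast this
    have hbG : (b : ℝ) ^ G ≤ 2 ^ K := by
      have h1 : (b : ℝ) ≤ 2 ^ b := by exact_mod_cast (Nat.lt_two_pow_self (n := b)).le
      calc (b : ℝ) ^ G ≤ (2 ^ b) ^ G := pow_le_pow_left₀ hb0.le h1 G
        _ = 2 ^ (G * b) := by rw [← pow_mul, mul_comm]
        _ ≤ 2 ^ K := pow_le_pow_right₀ (by norm_num) hGb
    have hmain : ∀ V : ℝ, ((q : ℝ) ^ 2) ^ K ≤ V →
        ‖∫ ω, ee (h * ξ * (q : ℝ) ^ s / (q : ℝ) ^ I n * V * (x + r * Real.ofDigits ω) ^ n) ∂μ‖ ≤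
          16 / (G : ℝ) ^ 4 := by
      intro V hV
      rw [hμd]
      have hV0 : 0 < V := lt_of_lt_of_le (by positivity) hV
      have hh' : (1 : ℝ) ≤ h := by exact_mod_cast hh
      refine hk1 n (h * ξ * (q : ℝ) ^ s / (q : ℝ) ^ I n * V) G hn2 (by positivity) ?_ hG16
      have h1 : 1 ≤ β1 ^ n / (q : ℝ) ^ I n := by
        rw [one_le_div (by positivity)]; exact hqI n
      have h2 : (1 : ℝ) ≤ (q : ℝ) ^ s := one_le_pow₀ hq1.le
      have h3 : (4 : ℝ) ^ K ≤ V := by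
        refine le_trans (pow_le_pow_left₀ (by norm_num) ?_ K) hV
        nlinarith
      have h4 : 1 ≤ ξ * 2 ^ K := by
        have : 1 / ξ ≤ 2 ^ K := hkξ.le.trans (pow_le_pow_right₀ (by norm_num) hkK)
        rw [div_le_iff₀ hξ] at this
        linarith
      calc (b : ℝ) ^ G ≤ 2 ^ K := hbG
        _ ≤ (ξ * 2 ^ K) * 2 ^ K := by
            have : (0 : ℝ) < 2 ^ K := by positivity
            nlinarith
        _ = ξ * 4 ^ K := by
            rw [mul_assoc, ← mul_pow]; norm_num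
        _ ≤ ξ * V := by gcongr
        _ = 1 * ξ * 1 * V * 1 := by ring
        _ ≤ h * ξ * (q : ℝ) ^ s * V * (β1 ^ n / (q : ℝ) ^ I n) := by gcongr
        _ = _ := by ring
    have hgm : Measurable fun ω : ℕ → Fin b => (x + r * Real.ofDigits ω) ^ n :=
      ((s_meas.const_mul r).const_add x).pow_const n
    have h4 := fourth μ hμ (fun ω : ℕ → Fin b => (x + r * Real.ofDigits ω) ^ n) hgm
      (h * ξ * (q : ℝ) ^ s / (q : ℝ) ^ I n) ((q : ℝ) ^ 2) (by nlinarith) K (J n) (16 / (G : ℝ) ^ 4)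
      (by positivity) hmain
    have hJn : (J n : ℝ) ≤ lam * n := le_trans (by exact_mod_cast hJ n) (hIn n)
    have hKR : ((K : ℝ) + 1) ^ 2 ≤ 4 * n := by
      have h5 : (K : ℝ) ^ 2 ≤ n := by exact_mod_cast hKn
      have h6 : (1 : ℝ) ≤ K := by exact_mod_cast hK1
      nlinarith
    have hGn : (n : ℝ) ^ 2 ≤ 16 * (2 * b) ^ 4 * (G : ℝ) ^ 4 := by
      have h5 : (n : ℝ) ≤ 4 * (2 * b * G) ^ 2 := by
        have h6 : (n : ℝ) ≤ 4 * (K : ℝ) ^ 2 := by exact_mod_cast hnK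
        have h7 : (K : ℝ) ≤ 2 * b * G := by exact_mod_cast hKG
        refine h6.trans ?_
        gcongr
      calc (n : ℝ) ^ 2 ≤ (4 * (2 * b * G) ^ 2) ^ 2 := pow_le_pow_left₀ hnR.le h5 2
        _ = _ := by ring
    have h7 : ∫ ω, ‖∑ m ∈ range (J n), ee (h * ξ * (q : ℝ) ^ s / (q : ℝ) ^ I n *
      ((q : ℝ) ^ 2) ^ m * (x + r * Real.ofDigits ω) ^ n)‖ ^ 4 ∂μ ≤ C * (n : ℝ) ^ 2 := by
      refine h4.trans ?_
      rw [hC, add_mul]
      refine add_le_add ?_ ?_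
      · calc 2 * ((J n : ℝ) + ((K : ℝ) + 1) ^ 2) ^ 2 ≤ 2 * (lam * n + 4 * n) ^ 2 := by gcongr
          _ = _ := by ring
      · rw [← mul_div_assoc, div_le_iff₀ (by positivity)]
        calc (J n : ℝ) ^ 4 * 16 ≤ (lam * n) ^ 4 * 16 := by gcongr
          _ = lam ^ 4 * 16 * (n : ℝ) ^ 2 * (n : ℝ) ^ 2 := by ring
          _ ≤ lam ^ 4 * 16 * (n : ℝ) ^ 2 * (16 * (2 * b) ^ 4 * (G : ℝ) ^ 4) := by gcongr
          _ = _ := by ring
    simp_rw [div_pow]
    rw [integral_div, div_le_div_iff₀ (by positivity) (by positivity)]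
    calc _ ≤ C * (n : ℝ) ^ 2 * (n : ℝ) ^ 2 := by gcongr
      _ = _ := by ring
  obtain ⟨n0, hn0⟩ := eventually_atTop.1 hev
  have hmeas : ∀ n, Measurable fun ω : ℕ → Fin b => (‖∑ m ∈ range (J n), ee (h * ξ * (q : ℝ) ^ s / (q : ℝ) ^ I n *
      ((q : ℝ) ^ 2) ^ m * (x + r * Real.ofDigits ω) ^ n)‖ / n) ^ 4 := by
    intro n
    have h1 : ∀ m, Measurable fun ω : ℕ → Fin b => ee (h * ξ * (q : ℝ) ^ s / (q : ℝ) ^ I n *
      ((q : ℝ) ^ 2) ^ m * (x + r * Real.ofDigits ω) ^ n) := fun m =>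
      ee_cont.measurable.comp ((((s_meas.const_mul r).const_add x).pow_const n).const_mul _)
    exact ((Finset.measurable_fun_sum _ fun m _ => h1 m).norm.div_const _).pow_const 4
  have hbd : ∀ n, ∀ ω : ℕ → Fin b, (‖∑ m ∈ range (J n), ee (h * ξ * (q : ℝ) ^ s / (q : ℝ) ^ I n *
      ((q : ℝ) ^ 2) ^ m * (x + r * Real.ofDigits ω) ^ n)‖ / n) ^ 4 ≤ ((J n : ℝ) / n) ^ 4 := by
    intro n ω
    have h1 : ‖∑ m ∈ range (J n), ee (h * ξ * (q : ℝ) ^ s / (q : ℝ) ^ I n *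
      ((q : ℝ) ^ 2) ^ m * (x + r * Real.ofDigits ω) ^ n)‖ ≤ J n := by
      refine (norm_sum_le _ _).trans ?_
      simp [ee_norm]
    gcongr
  have hae := ae_of_moment μ _ hmeas (fun n ω => by positivity)
    (fun n => Integrable.of_bound (hmeas n).aestronglyMeasurable (((J n : ℝ) / n) ^ 4)
      (Eventually.of_forall fun ω => by
        rw [Real.norm_eq_abs, abs_of_nonneg (by positivity)]
        exact hbd n ω)) C n0 hn0
  rw [← hμd]
  filter_upwards [hae] with ω hω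
  exact root_tendsto (fun n => by positivity) hω

/-- all places -/
theorem cyl_small (hb : 2 ≤ b) (d : ℕ → Fin b) (T : Set ℕ) (c : ℝ) (hc0 : 0 ≤ c) (hc : c < 1 / 2)
    (hT : Recurs b c T) (x r ξ β1 : ℝ) (hr : r ≠ 0) (hξ : 0 < ξ) (hβ1 : 1 < β1) (k0 : ℕ) (w0 : ℕ → Fin b)
    (hβ : ∀ ω ∈ cyl k0 w0, β1 ≤ x + r * Real.ofDigits ω) (q : ℕ) (hq : 2 ≤ q) (h : ℕ) (hh : 1 ≤ h) :
    ∀ᵐ ω ∂((noise d T).restrict (cyl k0 w0)), Tendsto (fun n : ℕ =>
      ‖∑ j ∈ range ⌊n * Real.logb q β1⌋₊, ee (h * (ξ * (x + r * Real.ofDigits ω) ^ n /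
        (q : ℝ) ^ ⌊n * Real.logb q β1⌋₊ * (q : ℝ) ^ j))‖ / n) atTop (𝓝 0) := by
  obtain ⟨I, hI⟩ : ∃ I : ℕ → ℕ, I = fun n : ℕ => ⌊(n : ℝ) * Real.logb q β1⌋₊ := ⟨_, rfl⟩
  have hI' : ∀ n : ℕ, ⌊n * Real.logb q β1⌋₊ = I n := fun n => by rw [hI]
  simp_rw [hI']
  have h0 := class_small hb d T c hc0 hc hT x r ξ β1 hr hξ hβ1 k0 w0 hβ q hq h hh I
    (fun n => (I n + 1) / 2) hI (fun n => by omega) 0
  have h1 := class_small hb d T c hc0 hc hT x r ξ β1 hr hξ hβ1 k0 w0 hβ q hq h hh I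
    (fun n => I n / 2) hI (fun n => by omega) 1
  filter_upwards [h0, h1] with ω g0 g1
  have g2 := g0.add g1
  rw [add_zero] at g2
  refine squeeze_zero (fun n => by positivity) (fun n => ?_) g2
  rw [← add_div]
  gcongr
  rw [even_odd]
  refine (norm_add_le _ _).trans (le_of_eq ?_)
  congr 1
  · congr 1
    refine Finset.sum_congr rfl fun m _ => ?_
    congr 1
    rw [← pow_mul]; ring
  · congr 1
    refine Finset.sum_congr rfl fun m _ => ?_
    congr 1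
    rw [← pow_mul]; ring

end Q83.NR
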