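import Pool.Agent.Q83.NR.C

/-!
# Digits of powers: from exponential sums to words
-/

set_option autoImplicit false
set_option linter.unusedSectionVars false

open MeasureTheory Filter Topology Finset
open scoped ENNReal
open Pool.Agent.H493R3 (ee ee_norm ee_add ee_neg ee_int ee_lip)
open Q83.NP Q83.NQ

namespace Q83.NR

open Classical in
/-- the number of places of the base `q` expansion of `m` at which the word `v` (lowest digit first)
begins -/
noncomputable def occ (q : ℕ) {k : ℕ} (v : Fin k → Fin q) (m : ℕ) : ℕ :=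
  #{i ∈ range (Nat.log q m + 1) | ∀ j : Fin k, m / q ^ (i + (j : ℕ)) % q = v j}

lemma card_near (P : ℕ → Prop) [DecidablePred P] (a c : ℕ) :
    |(#{i ∈ range a | P i} : ℝ) - #{i ∈ range c | P i}| ≤ |(a : ℝ) - c| := by
  have key : ∀ a c : ℕ, a ≤ c → |(#{i ∈ range a | P i} : ℝ) - #{i ∈ range c | P i}| ≤ |(a : ℝ) - c| := by
    intro a c hac
    have h1 : #{i ∈ range a | P i} ≤ #{i ∈ range c | P i} :=
      card_le_card (filter_subset_filter _ (range_mono hac))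
    have h2 : #{i ∈ range c | P i} ≤ #{i ∈ range a | P i} + (c - a) := by
      have h3 : {i ∈ range c | P i} ⊆ {i ∈ range a | P i} ∪ Ico a c := by
        intro i hi
        rw [Finset.mem_filter, Finset.mem_range] at hi
        rw [Finset.mem_union, Finset.mem_filter, Finset.mem_range, Finset.mem_Ico]
        by_cases h : i < a
        · exact Or.inl ⟨h, hi.2⟩
        · exact Or.inr ⟨by omega, hi.1⟩
      refine (card_le_card h3).trans ((card_union_le _ _).trans ?_)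
      rw [Nat.card_Ico]
    have h1R : (#{i ∈ range a | P i} : ℝ) ≤ #{i ∈ range c | P i} := by exact_mod_cast h1
    have h2R : (#{i ∈ range c | P i} : ℝ) ≤ #{i ∈ range a | P i} + ((c : ℝ) - a) := by
      rw [← Nat.cast_sub hac]; exact_mod_cast h2
    have hacR : (a : ℝ) ≤ c := by exact_mod_cast hac
    rw [abs_sub_comm, abs_of_nonneg (by linarith), abs_sub_comm, abs_of_nonneg (by linarith)]
    linarith
  rcases le_total a c with h | h
  · exact key a c h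
  · rw [abs_sub_comm, abs_sub_comm (a : ℝ)]
    exact key c a h

lemma floor_digit (q : ℕ) (hq : 2 ≤ q) (y : ℝ) (hy : 0 ≤ y) (t : ℕ) (v : Fin q) :
    (⌊y / (q : ℝ) ^ t⌋ % (q : ℤ) = ((v : ℕ) : ℤ)) ↔ ⌊y⌋₊ / q ^ t % q = v := by
  have h1 : ⌊y / (q : ℝ) ^ t⌋ = ((⌊y⌋₊ / q ^ t : ℕ) : ℤ) := by
    have h2 : (q : ℝ) ^ t = ((q ^ t : ℕ) : ℝ) := by push_cast; rfl
    rw [← Int.natCast_floor_eq_floor (by positivity), h2, Nat.floor_div_natCast]
  rw [h1]
  constructor
  · intro h; exact_mod_cast h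
  · intro h; exact_mod_cast h

lemma shift_aux {q : ℝ} (hq : 0 < q) (y : ℝ) {I t s : ℕ} (h : I = t + s) :
    y / q ^ I * q ^ s = y / q ^ t := by
  rw [h, pow_add, div_mul_eq_mul_div, div_eq_div_iff (by positivity) (by positivity)]
  ring

/-- counting from the top or from the bottom -/
lemma flip_count (q : ℕ) (hq : 2 ≤ q) {k : ℕ} (hk : 1 ≤ k) (v : Fin k → Fin q) (y : ℝ) (hy : 0 ≤ y) (I : ℕ)
    (hI : k ≤ I) :
    |(#{j ∈ range I | ∀ i : Fin k, ⌊y / (q : ℝ) ^ I * (q : ℝ) ^ (j + 1 + (i : ℕ))⌋ % (q : ℤ) =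
        (((v i.rev : ℕ)) : ℤ)} : ℝ) - #{i ∈ range (I - k + 1) | ∀ j : Fin k, ⌊y⌋₊ / q ^ (i + (j : ℕ)) % q = v j}|
      ≤ k := by
  have hq0 : (0 : ℝ) < q := by exact_mod_cast (by omega : 0 < q)
  have h1 := card_near (fun j => ∀ i : Fin k, ⌊y / (q : ℝ) ^ I * (q : ℝ) ^ (j + 1 + (i : ℕ))⌋ % (q : ℤ) =
        (((v i.rev : ℕ)) : ℤ)) I (I - k + 1)
  have h2 : #{j ∈ range (I - k + 1) | ∀ i : Fin k, ⌊y / (q : ℝ) ^ I * (q : ℝ) ^ (j + 1 + (i : ℕ))⌋ % (q : ℤ) =
        (((v i.rev : ℕ)) : ℤ)} = #{i ∈ range (I - k + 1) | ∀ j : Fin k, ⌊y⌋₊ / q ^ (i + (j : ℕ)) % q = v j} := by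
    refine Finset.card_nbij' (fun j => I - k - j) (fun j => I - k - j) ?_ ?_ ?_ ?_
    · intro j hj
      simp only [Finset.mem_coe, Finset.mem_filter, Finset.mem_range] at hj ⊢
      refine ⟨by omega, fun i => ?_⟩
      have h3 := hj.2 i.rev
      rw [Fin.rev_rev] at h3
      rw [← floor_digit q hq y hy]
      rw [← h3]
      have e : I = (I - k - j + (i : ℕ)) + (j + 1 + (i.rev : ℕ)) := by
        have := i.2
        rw [Fin.val_rev]; omega
      rw [shift_aux hq0 y e]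
    · intro j hj
      simp only [Finset.mem_coe, Finset.mem_filter, Finset.mem_range] at hj ⊢
      refine ⟨by omega, fun i => ?_⟩
      have h3 := hj.2 i.rev
      rw [← floor_digit q hq y hy] at h3
      rw [← h3]
      have e : I = (j + (i.rev : ℕ)) + (I - k - j + 1 + (i : ℕ)) := by
        have := i.2
        rw [Fin.val_rev]; omega
      rw [shift_aux hq0 y e]
    · intro j hj
      simp only [Finset.mem_coe, Finset.mem_filter, Finset.mem_range] at hj ⊢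
      omega
    · intro j hj
      simp only [Finset.mem_coe, Finset.mem_filter, Finset.mem_range] at hj ⊢
      omega
  rw [← h2]
  refine h1.trans ?_
  rw [Nat.cast_add, Nat.cast_sub hI]
  push_cast
  have : (1 : ℝ) ≤ k := by exact_mod_cast hk
  rw [abs_le]; constructor <;> linarith

/-- the number of digits -/
lemma len_bound (q : ℕ) (hq : 2 ≤ q) (y : ℝ) (hy : 1 ≤ y) :
    |((Nat.log q ⌊y⌋₊ + 1 : ℕ) : ℝ) - Real.logb q y| ≤ 1 := by
  have hq1 : (1 : ℝ) < q := by exact_mod_cast (by omega : 1 < q)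
  have hq0 : (0 : ℝ) < q := by linarith
  have hm : ⌊y⌋₊ ≠ 0 := by
    have : 1 ≤ ⌊y⌋₊ := Nat.le_floor (by exact_mod_cast hy)
    omega
  have h1 : (q : ℝ) ^ (Nat.log q ⌊y⌋₊) ≤ y := by
    refine le_trans ?_ (Nat.floor_le (by linarith))
    exact_mod_cast Nat.pow_log_le_self q hm
  have h2 : y < (q : ℝ) ^ (Nat.log q ⌊y⌋₊ + 1) := by
    refine lt_of_lt_of_le (Nat.lt_floor_add_one y) ?_
    have := Nat.lt_pow_succ_log_self (by omega : 1 < q) ⌊y⌋₊
    exact_mod_cast this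
  have h3 : ((Nat.log q ⌊y⌋₊ : ℕ) : ℝ) ≤ Real.logb q y := by
    rw [Real.le_logb_iff_rpow_le hq1 (by linarith), Real.rpow_natCast]
    exact h1
  have h4 : Real.logb q y ≤ ((Nat.log q ⌊y⌋₊ + 1 : ℕ) : ℝ) := by
    rw [Real.logb_le_iff_le_rpow hq1 (by linarith), Real.rpow_natCast]
    exact h2.le
  push_cast at h4 ⊢
  rw [abs_le]; constructor <;> linarith

/-- **From exponential sums to words**, for one number. -/
theorem words_of_small (q : ℕ) (hq : 2 ≤ q) (ξ β β1 ε : ℝ) (hξ : 0 < ξ) (hβ1 : 1 < β1) (hβ : β1 ≤ β)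
    (hε : 0 < ε) (hclose : Real.logb q β - Real.logb q β1 ≤ ε)
    (hW : ∀ h : ℕ, 1 ≤ h → Tendsto (fun n : ℕ =>
      ‖∑ j ∈ range ⌊n * Real.logb q β1⌋₊, ee (h * (ξ * β ^ n /
        (q : ℝ) ^ ⌊n * Real.logb q β1⌋₊ * (q : ℝ) ^ j))‖ / n) atTop (𝓝 0))
    {k : ℕ} (hk : 1 ≤ k) (v : Fin k → Fin q) :
    ∀ᶠ n : ℕ in atTop, |(occ q v ⌊ξ * β ^ n⌋₊ : ℝ) / (n * Real.logb q β) - 1 / (q : ℝ) ^ k| ≤
      (4 + Real.logb q β) / Real.logb q β * ε := by
  classical
  have hq1 : (1 : ℝ) < q := by exact_mod_cast (by omega : 1 < q)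
  have hq0 : (0 : ℝ) < q := by linarith
  have hβpos : 0 < β := by linarith
  obtain ⟨lam, hlam⟩ : ∃ lam, lam = Real.logb q β := ⟨_, rfl⟩
  obtain ⟨lam1, hlam1⟩ : ∃ lam1, lam1 = Real.logb q β1 := ⟨_, rfl⟩
  rw [← hlam, ← hlam1] at hclose
  rw [← hlam1] at hW
  rw [← hlam]
  have hl1 : 0 < lam1 := by rw [hlam1]; exact Real.logb_pos hq1 hβ1
  have hl11 : lam1 ≤ lam := by
    rw [hlam, hlam1]
    exact Real.logb_le_logb_of_le hq1 (by linarith) hβ
  have hl0 : 0 < lam := by linarith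
  obtain ⟨H, δ, hδ, hH⟩ := finite_words q hq k ε hε
  have hItop : Tendsto (fun n : ℕ => ⌊(n : ℝ) * lam1⌋₊) atTop atTop :=
    tendsto_nat_floor_atTop.comp (tendsto_natCast_atTop_atTop.atTop_mul_const hl1)
  have hWall : ∀ᶠ n : ℕ in atTop, ∀ h : ℕ, 1 ≤ h → h ≤ H →
      ‖∑ j ∈ range ⌊n * lam1⌋₊, ee (h * (ξ * β ^ n / (q : ℝ) ^ ⌊n * lam1⌋₊ * (q : ℝ) ^ j))‖ ≤
        δ * (lam1 / 2) * n := by
    have h1 : ∀ h ∈ Finset.Icc 1 H, ∀ᶠ n : ℕ in atTop,
        ‖∑ j ∈ range ⌊n * lam1⌋₊, ee (h * (ξ * β ^ n / (q : ℝ) ^ ⌊n * lam1⌋₊ * (q : ℝ) ^ j))‖ ≤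
        δ * (lam1 / 2) * n := by
      intro h hh
      rw [Finset.mem_Icc] at hh
      have h2 := (hW h hh.1).eventually (gt_mem_nhds (show 0 < δ * (lam1 / 2) by positivity))
      filter_upwards [h2, eventually_gt_atTop 0] with n hn hn0
      have hnR : (0 : ℝ) < n := by exact_mod_cast hn0
      rw [div_lt_iff₀ hnR] at hn
      exact hn.le
    have h3 := (Filter.eventually_all_finset (Finset.Icc 1 H)).2 h1
    filter_upwards [h3] with n hn h hh1 hh2
    exact hn h (Finset.mem_Icc.2 ⟨hh1, hh2⟩)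
  obtain ⟨R, hR⟩ : ∃ R : ℝ, R = 2 * k + |Real.logb q ξ| + 3 := ⟨_, rfl⟩
  have hy1 : ∀ᶠ n : ℕ in atTop, 1 ≤ ξ * β ^ n :=
    (Tendsto.const_mul_atTop hξ (tendsto_pow_atTop_atTop_of_one_lt (by linarith))).eventually_ge_atTop 1
  filter_upwards [hWall, hItop.eventually_ge_atTop (k + 1), hy1, eventually_gt_atTop 0,
    (tendsto_natCast_atTop_atTop (R := ℝ)).eventually_ge_atTop (2 / lam1),
    (tendsto_natCast_atTop_atTop (R := ℝ)).eventually_ge_atTop (R / ε)] with n hn1 hn2 hn3 hn0 hn4 hn5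
  have hnR : (0 : ℝ) < n := by exact_mod_cast hn0
  obtain ⟨I, hI⟩ : ∃ I : ℕ, I = ⌊(n : ℝ) * lam1⌋₊ := ⟨_, rfl⟩
  rw [← hI] at hn1 hn2
  have hI0 : 0 < I := by omega
  have hIu : (I : ℝ) ≤ n * lam1 := by rw [hI]; exact Nat.floor_le (by positivity)
  have hIl : n * lam1 < (I : ℝ) + 1 := by rw [hI]; exact Nat.lt_floor_add_one _
  obtain ⟨y, hy⟩ : ∃ y, y = ξ * β ^ n := ⟨_, rfl⟩
  rw [← hy] at hn1 hn3
  have hIhalf : lam1 / 2 * n ≤ I := by
    rw [div_le_iff₀ hl1] at hn4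
    linarith
  have hfw := hH (y / (q : ℝ) ^ I) I hI0 (fun h h1 h2 => by
    refine (hn1 h h1 h2).trans ?_
    rw [mul_assoc]
    gcongr) (fun i => v i.rev)
  have hfl := flip_count q hq hk v y (by linarith) I (by omega)
  have hnear := card_near (fun i => ∀ j : Fin k, ⌊y⌋₊ / q ^ (i + (j : ℕ)) % q = v j)
    (Nat.log q ⌊y⌋₊ + 1) (I - k + 1)
  have hlen := len_bound q hq y hn3
  have hlogy : Real.logb q y = Real.logb q ξ + n * lam := by
    rw [hy, Real.logb_mul hξ.ne' (pow_pos hβpos n).ne', Real.logb_pow, hlam]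
  rw [hlogy] at hlen
  have hocc : (occ q v ⌊ξ * β ^ n⌋₊ : ℝ) =
      #{i ∈ range (Nat.log q ⌊y⌋₊ + 1) | ∀ j : Fin k, ⌊y⌋₊ / q ^ (i + (j : ℕ)) % q = v j} := by
    rw [hy]; rfl
  rw [hocc]
  obtain ⟨A, hA⟩ : ∃ A : ℝ, A = #{i ∈ range (Nat.log q ⌊y⌋₊ + 1) | ∀ j : Fin k,
    ⌊y⌋₊ / q ^ (i + (j : ℕ)) % q = v j} := ⟨_, rfl⟩
  obtain ⟨A2, hA2⟩ : ∃ A2 : ℝ, A2 = #{i ∈ range (I - k + 1) | ∀ j : Fin k,
    ⌊y⌋₊ / q ^ (i + (j : ℕ)) % q = v j} := ⟨_, rfl⟩
  obtain ⟨L, hL⟩ : ∃ L : ℝ, L = ((Nat.log q ⌊y⌋₊ + 1 : ℕ) : ℝ) := ⟨_, rfl⟩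
  rw [← hA, ← hA2, ← hL] at hnear
  rw [← hA2] at hfl
  rw [← hA]
  rw [← hL] at hlen
  have hcast : ((I - k + 1 : ℕ) : ℝ) = I - k + 1 := by
    rw [Nat.cast_add, Nat.cast_sub (by omega)]; push_cast; ring
  rw [hcast] at hnear
  have hkR : (1 : ℝ) ≤ k := by exact_mod_cast hk
  have hqk : (1 : ℝ) ≤ (q : ℝ) ^ k := one_le_pow₀ hq1.le
  have hqk0 : (0 : ℝ) < (q : ℝ) ^ k := by positivity
  have hinv : 1 / (q : ℝ) ^ k ≤ 1 := by rw [div_le_one hqk0]; exact hqk
  -- the main estimate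
  have hnlam : n * lam ≤ n * lam1 + n * ε := by
    have : n * lam ≤ n * (lam1 + ε) := by gcongr; linarith
    linarith
  have hnlam' : n * lam1 ≤ n * lam := by gcongr
  have hIlam : |(I : ℝ) - n * lam| ≤ 1 + n * ε := by
    rw [abs_le]; constructor <;> linarith
  have hIq : |(I : ℝ) / (q : ℝ) ^ k - n * lam / (q : ℝ) ^ k| ≤ 1 + n * ε := by
    rw [← sub_div, abs_div, abs_of_pos hqk0]
    exact (div_le_self (abs_nonneg _) hqk).trans hIlam
  have hL2 : |L - (I - k + 1)| ≤ |Real.logb q ξ| + k + 2 + n * ε := by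
    have := le_abs_self (Real.logb q ξ)
    have := neg_abs_le (Real.logb q ξ)
    rw [abs_le] at hlen hIlam ⊢
    constructor <;> linarith [hlen.1, hlen.2, hIlam.1, hIlam.2]
  have hRn : R ≤ n * ε := by
    rw [div_le_iff₀ hε] at hn5
    linarith
  have hmain : |A - n * lam / (q : ℝ) ^ k| ≤ (4 + lam) * ε * n := by
    have h5 : ε * I ≤ ε * (n * lam) := by gcongr; linarith
    have h6 := abs_le.1 hfw
    have h7 := abs_le.1 hfl
    have h8 := abs_le.1 (hnear.trans hL2)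
    have h9 := abs_le.1 hIq
    have e2 : (4 + lam) * ε * n = 4 * (n * ε) + ε * (n * lam) := by ring
    have hpos : 0 ≤ n * ε := by positivity
    rw [e2, abs_le]
    obtain ⟨g61, g62⟩ := h6
    obtain ⟨g71, g72⟩ := h7
    obtain ⟨g81, g82⟩ := h8
    obtain ⟨g91, g92⟩ := h9
    rw [hR] at hRn
    clear hfw hfl hnear hn1 hW hH hIq hL2 hIlam hlen
    constructor <;> linarith
  have e1 : A / (n * lam) - 1 / (q : ℝ) ^ k = (A - n * lam / (q : ℝ) ^ k) / (n * lam) := by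
    field_simp
  rw [e1, abs_div, abs_of_pos (by positivity : 0 < n * lam), div_le_iff₀ (by positivity)]
  refine hmain.trans (le_of_eq ?_)
  field_simp

variable {b : ℕ} [NeZero b]

/-- the lower bound of the base on a cylinder -/
noncomputable def low (b : ℕ) [NeZero b] (x r : ℝ) (p : Σ k : ℕ, Fin k → Fin b) : ℝ :=
  x + r * Real.ofDigits (extw p.2) - |r| * ((b : ℝ) ^ p.1)⁻¹

/-- **Sparse noise in the base: words in powers.** -/
theorem words_ae (hb : 2 ≤ b) (d : ℕ → Fin b) (T : Set ℕ) (c : ℝ) (hc : c < 1 / 2)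
    (hT : Recurs b c T) (x r ξ : ℝ) (hr : r ≠ 0) (hξ : 0 < ξ) :
    ∀ᵐ ω ∂(noise d T), 1 < x + r * Real.ofDigits ω → ∀ q : ℕ, 2 ≤ q → ∀ (k : ℕ) (v : Fin k → Fin q),
      Tendsto (fun n : ℕ => (occ q v ⌊ξ * (x + r * Real.ofDigits ω) ^ n⌋₊ : ℝ) /
        (n * Real.logb q (x + r * Real.ofDigits ω))) atTop (𝓝 (1 / (q : ℝ) ^ k)) := by
  have hT' : Recurs b (max c 0) T := hT.mono hb (le_max_left _ _)
  have hc' : max c 0 < 1 / 2 := max_lt hc (by norm_num)
  have hb1 : (1 : ℝ) < b := by exact_mod_cast (by omega : 1 < b)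
  have hb0 : (0 : ℝ) < b := by linarith
  have h1 : ∀ (p : Σ k : ℕ, Fin k → Fin b) (q h : ℕ), ∀ᵐ ω ∂(noise d T), 1 < low b x r p → 2 ≤ q → 1 ≤ h →
      ω ∈ cyl p.1 (extw p.2) → Tendsto (fun n : ℕ =>
      ‖∑ j ∈ range ⌊n * Real.logb q (low b x r p)⌋₊, ee (h * (ξ * (x + r * Real.ofDigits ω) ^ n /
        (q : ℝ) ^ ⌊n * Real.logb q (low b x r p)⌋₊ * (q : ℝ) ^ j))‖ / n) atTop (𝓝 0) := by
    intro p q h
    by_cases hp : 1 < low b x r p ∧ 2 ≤ q ∧ 1 ≤ h
    · obtain ⟨hp1, hp2, hp3⟩ := hp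
      have h2 := cyl_small hb d T (max c 0) (le_max_right _ _) hc' hT' x r ξ (low b x r p) hr hξ hp1 p.1
        (extw p.2) (fun ω hω => by
          have h3 := cyl_near (extw p.2) hω
          have h4 : |r * (Real.ofDigits ω - Real.ofDigits (extw p.2))| ≤ |r| * ((b : ℝ) ^ p.1)⁻¹ := by
            rw [abs_mul]; gcongr
          have h5 := (abs_le.1 h4).1
          unfold low
          linarith) q hp2 h hp3
      rw [ae_restrict_iff' (cyl_meas _ _)] at h2
      filter_upwards [h2] with ω hω _ _ _ hm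
      exact hω hm
    · exact Eventually.of_forall fun ω a1 a2 a3 => absurd ⟨a1, a2, a3⟩ hp
  have h2 : ∀ᵐ ω ∂(noise d T), ∀ (p : Σ k : ℕ, Fin k → Fin b) (q h : ℕ), 1 < low b x r p → 2 ≤ q → 1 ≤ h →
      ω ∈ cyl p.1 (extw p.2) → Tendsto (fun n : ℕ =>
      ‖∑ j ∈ range ⌊n * Real.logb q (low b x r p)⌋₊, ee (h * (ξ * (x + r * Real.ofDigits ω) ^ n /
        (q : ℝ) ^ ⌊n * Real.logb q (low b x r p)⌋₊ * (q : ℝ) ^ j))‖ / n) atTop (𝓝 0) := by
    rw [ae_all_iff]; intro p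
    rw [ae_all_iff]; intro q
    rw [ae_all_iff]; intro h
    exact h1 p q h
  filter_upwards [h2] with ω hω hβ q hq k v
  obtain ⟨β, hβd⟩ : ∃ β, β = x + r * Real.ofDigits ω := ⟨_, rfl⟩
  rw [← hβd] at hβ hω ⊢
  have hq1 : (1 : ℝ) < q := by exact_mod_cast (by omega : 1 < q)
  have hq0 : (0 : ℝ) < q := by linarith
  rcases Nat.eq_zero_or_pos k with hk | hk
  · subst hk
    have hl0 : 0 < Real.logb q β := Real.logb_pos hq1 hβ
    have e1 : ∀ m : ℕ, (occ q v m : ℝ) = ((Nat.log q m + 1 : ℕ) : ℝ) := by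
      intro m
      unfold occ
      rw [Finset.filter_true_of_mem fun i _ j => j.elim0, card_range]
    simp_rw [e1]
    rw [pow_zero, div_one]
    have h3 : Tendsto (fun n : ℕ => 1 + (|Real.logb q ξ| + 1) / (n * Real.logb q β)) atTop (𝓝 1) := by
      have h4 : Tendsto (fun n : ℕ => (|Real.logb q ξ| + 1) / (n * Real.logb q β)) atTop (𝓝 0) :=
        Tendsto.const_div_atTop (tendsto_natCast_atTop_atTop.atTop_mul_const hl0) _
      simpa using h4.const_add 1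
    have h4 : Tendsto (fun n : ℕ => 1 - (|Real.logb q ξ| + 1) / (n * Real.logb q β)) atTop (𝓝 1) := by
      have h4 : Tendsto (fun n : ℕ => (|Real.logb q ξ| + 1) / (n * Real.logb q β)) atTop (𝓝 0) :=
        Tendsto.const_div_atTop (tendsto_natCast_atTop_atTop.atTop_mul_const hl0) _
      simpa using h4.const_sub 1
    have hy1 : ∀ᶠ n : ℕ in atTop, 1 ≤ ξ * β ^ n :=
      (Tendsto.const_mul_atTop hξ (tendsto_pow_atTop_atTop_of_one_lt hβ)).eventually_ge_atTop 1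
    refine tendsto_of_tendsto_of_tendsto_of_le_of_le' h4 h3 ?_ ?_
    · filter_upwards [hy1, eventually_gt_atTop 0] with n hn hn0
      have hnR : (0 : ℝ) < n := by exact_mod_cast hn0
      have h5 := abs_le.1 (len_bound q hq _ hn)
      rw [Real.logb_mul hξ.ne' (pow_pos (by linarith) n).ne', Real.logb_pow] at h5
      have h6 := neg_abs_le (Real.logb q ξ)
      have hpos : 0 < n * Real.logb q β := by positivity
      rw [sub_le_iff_le_add, ← add_div, le_div_iff₀ hpos]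
      linarith [h5.1]
    · filter_upwards [hy1, eventually_gt_atTop 0] with n hn hn0
      have hnR : (0 : ℝ) < n := by exact_mod_cast hn0
      have h5 := abs_le.1 (len_bound q hq _ hn)
      rw [Real.logb_mul hξ.ne' (pow_pos (by linarith) n).ne', Real.logb_pow] at h5
      have h6 := le_abs_self (Real.logb q ξ)
      have hpos : 0 < n * Real.logb q β := by positivity
      rw [div_le_iff₀ hpos, add_mul, div_mul_cancel₀ _ hpos.ne']
      linarith [h5.2]
  · obtain ⟨lam, hlam⟩ : ∃ lam, lam = Real.logb q β := ⟨_, rfl⟩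
    have hl0 : 0 < lam := by rw [hlam]; exact Real.logb_pos hq1 hβ
    rw [Metric.tendsto_atTop]
    intro ε' hε'
    obtain ⟨ε, hε⟩ : ∃ ε, ε = ε' / 2 / ((4 + lam) / lam) := ⟨_, rfl⟩
    have hε0 : 0 < ε := by rw [hε]; positivity
    -- choose the cylinder
    have hlow : Tendsto (fun m : ℕ => low b x r ⟨m, fun i : Fin m => ω i⟩) atTop (𝓝 β) := by
      have h3 : Tendsto (fun m : ℕ => 2 * |r| * ((b : ℝ) ^ m)⁻¹) atTop (𝓝 0) := by
        have h4 : Tendsto (fun m : ℕ => ((b : ℝ) ^ m)⁻¹) atTop (𝓝 0) :=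
          tendsto_inv_atTop_zero.comp (tendsto_pow_atTop_atTop_of_one_lt hb1)
        simpa using h4.const_mul (2 * |r|)
      have h4 : Tendsto (fun m : ℕ => β - 2 * |r| * ((b : ℝ) ^ m)⁻¹) atTop (𝓝 β) := by
        simpa using h3.const_sub β
      have hmem : ∀ m, ω ∈ cyl m (extw fun i : Fin m => ω i) := by
        intro m i hi
        unfold extw
        rw [dif_pos hi]
      have hnear : ∀ m : ℕ, |r * (Real.ofDigits ω - Real.ofDigits (extw fun i : Fin m => ω i))| ≤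
          |r| * ((b : ℝ) ^ m)⁻¹ := by
        intro m
        rw [abs_mul]
        have := cyl_near _ (hmem m)
        gcongr
      refine tendsto_of_tendsto_of_tendsto_of_le_of_le h4 tendsto_const_nhds (fun m => ?_) (fun m => ?_)
      · have := abs_le.1 (hnear m)
        simp only [low]
        rw [hβd]
        linarith [this.2]
      · have := abs_le.1 (hnear m)
        simp only [low]
        rw [hβd]
        linarith [this.1]
    have hmem : ∀ m, ω ∈ cyl m (extw fun i : Fin m => ω i) := by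
      intro m i hi
      unfold extw
      rw [dif_pos hi]
    have hlog : Tendsto (fun m : ℕ => Real.logb q (low b x r ⟨m, fun i : Fin m => ω i⟩)) atTop (𝓝 lam) := by
      rw [hlam]
      exact hlow.logb (by linarith)
    have ev1 := hlow.eventually (lt_mem_nhds hβ)
    have ev2 := hlog.eventually (lt_mem_nhds (show lam - ε < lam by linarith))
    obtain ⟨m, hm1, hm2⟩ := (ev1.and ev2).exists
    obtain ⟨β1, hβ1⟩ : ∃ β1, β1 = low b x r ⟨m, fun i : Fin m => ω i⟩ := ⟨_, rfl⟩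
    have hle : β1 ≤ β := by
      have h5 : |r * (Real.ofDigits ω - Real.ofDigits (extw fun i : Fin m => ω i))| ≤
          |r| * ((b : ℝ) ^ m)⁻¹ := by
        rw [abs_mul]
        have := cyl_near _ (hmem m)
        gcongr
      have := abs_le.1 h5
      rw [hβ1, hβd]
      simp only [low]
      linarith [this.1]
    have hW := fun h hh => hω ⟨m, fun i : Fin m => ω i⟩ q h hm1 hq hh (hmem m)
    rw [← hβ1] at hW hm1 hm2
    have h6 := words_of_small q hq ξ β β1 ε hξ hm1 hle hε0 (by rw [← hlam]; linarith) hW hk v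
    rw [← hlam] at h6
    obtain ⟨N, hN⟩ := eventually_atTop.1 h6
    refine ⟨N, fun n hn => ?_⟩
    rw [Real.dist_eq, ← hlam]
    refine (hN n hn).trans_lt ?_
    have h7 : (4 + lam) / lam * ε = ε' / 2 := by
      rw [hε]; field_simp
    rw [h7]; linarith

end Q83.NR
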